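import Pool.Agent.H688.WSM.Final

/-!
# Weakly stable matchings with ties can be listed in randomized output-polynomial time

An instance of the stable marriage problem with ties of size `n` is given by two tables of
numbers: `r m w` is the rank of the woman `w` in the list of the man `m` and `s w m` the rank of
the man `m` in the list of the woman `w`; small ranks are good and equal ranks are ties. All weak
orders are allowed on both sides. There are a Turing machine and a polynomial `q` such that

* for every instance and every table `X` of numbers the machine stops after at most
  `q (length of the input + number of weakly stable matchings)` steps, with a list of different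
  weakly stable matchings;
* if the `n ^ 2` entries of `X` are random numbers with at least `(n + 1) ^ 3 + 3 + t` bits, then
  the list contains all weakly stable matchings with probability at least `1 - 2 ^ (-t)`;
* for every `n` there is one table `X` of numbers with at most `3 * (n + 1) ^ 3 + 4` bits for
  which the list contains all weakly stable matchings, for all instances of size `n`.

The main tool: for the men, one woman in each list is promoted to the head of her tie; for the
women, the ties are broken by linear orders, with the signed weights
`∏ x a / (x a - x b)` over the consecutive pairs `(a, b)`. For every matching `M` the total weight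
of the choices for which `M` is the woman-optimal stable matching is a determinant, because the
events that `a` comes before `j` are independent for fixed `j`. These determinants have the sum
`n ^ n`. So a sum of determinants shows whether the woman-optimal matchings for all choices have
been found. The other weakly stable matchings are found with symbolic determinants of the graphs
of allowed moves.
-/

set_option autoImplicit false

namespace Pool.Agent.Results.MP_9fcbaa_lc.RandomizedListing

open Pool.Agent.NPC

/-- the matching `M` (`M m` is the wife of `m`) is weakly stable: there is no man `m` and no woman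
`w` such that `m` strictly prefers `w` to his wife and `w` strictly prefers `m` to her husband -/
def WeaklyStable {n : ℕ} (r s : Fin n → Fin n → ℕ) (M : Equiv.Perm (Fin n)) : Prop :=
  ∀ m w : Fin n, ¬ (r m w < r m (M m) ∧ s w m < s w (M.symm w))

/-- the number of weakly stable matchings -/
noncomputable def number {n : ℕ} (r s : Fin n → Fin n → ℕ) : ℕ :=
  Nat.card {M : Equiv.Perm (Fin n) // WeaklyStable r s M}

/-- a table as the list of its rows -/
def rows {n : ℕ} (A : Fin n → Fin n → ℕ) : List (List ℕ) :=
  List.ofFn fun i => List.ofFn fun j => A i j

/-- a matching as the list of the wives of the men `0, 1, …, n - 1` -/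
def wives {n : ℕ} (M : Equiv.Perm (Fin n)) : List ℕ := List.ofFn fun m => (M m : ℕ)

/-- inputs: two tables of ranks and a table of (random) numbers -/
abbrev Input : Type := List (List ℕ) × List (List ℕ) × List (List ℕ)

/-- the input for the instance `r`, `s` and the table `X` -/
def input {n : ℕ} (r s X : Fin n → Fin n → ℕ) : Input := (rows r, rows s, rows X)

/-- **Randomized listing of all weakly stable matchings in output-polynomial time**, for all
instances of the stable marriage problem with ties. -/
theorem result : ∃ (M : Turing.TM2ComputableAux Bool Bool) (q : Polynomial ℕ)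
    (f : Input → List (List ℕ)),
    (∀ (n : ℕ) (r s X : Fin n → Fin n → ℕ),
      Nonempty (Turing.TM2OutputsInTime M.tm ((bits (input r s X)).map M.inputAlphabet.invFun)
        (some ((bits (f (input r s X))).map M.outputAlphabet.invFun))
        (q.eval ((bits (input r s X)).length + number r s)))) ∧
    (∀ (n : ℕ) (r s X : Fin n → Fin n → ℕ), ∃ L : List (Equiv.Perm (Fin n)),
      f (input r s X) = L.map wives ∧ L.Nodup ∧ ∀ M ∈ L, WeaklyStable r s M) ∧
    (∀ (n : ℕ) (r s : Fin n → Fin n → ℕ) (N t : ℕ), 2 ^ ((n + 1) ^ 3 + 3 + t) ≤ N →
      2 ^ t * Nat.card {X : Fin n → Fin n → Fin N //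
        (f (input r s fun i j => (X i j : ℕ))).length ≠ number r s} ≤ N ^ (n * n)) ∧
    (∀ n : ℕ, ∃ X : Fin n → Fin n → Fin (2 ^ (3 * (n + 1) ^ 3 + 4)),
      ∀ r s : Fin n → Fin n → Fin n,
        (f (input (fun i j => (r i j : ℕ)) (fun i j => (s i j : ℕ))
          fun i j => (X i j : ℕ))).length =
          number (fun i j => (r i j : ℕ)) (fun i j => (s i j : ℕ))) := by
  have hst : ∀ (n : ℕ) (r s : Fin n → Fin n → ℕ) (M : Equiv.Perm (Fin n)),
      WeaklyStable r s M ↔ Pool.Agent.H688.WSM.Stable r s M := by
    intro n r s M
    unfold WeaklyStable Pool.Agent.H688.WSM.Stable
    constructor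
    · intro h m j hh
      refine h m (M j) ⟨hh.1, ?_⟩
      rw [Equiv.symm_apply_apply]
      exact hh.2
    · intro h m w hh
      refine h m (M.symm w) ?_
      rw [Equiv.apply_symm_apply]
      exact hh
  have hnum : ∀ (n : ℕ) (r s : Fin n → Fin n → ℕ),
      number r s = Pool.Agent.H688.WSM.num r s := by
    intro n r s
    unfold number Pool.Agent.H688.WSM.num
    simp only [hst]
  obtain ⟨M, q, hM⟩ := Pool.Agent.H688.WSM.exists_machine
  refine ⟨M, q, Pool.Agent.H688.WSM.out, fun n r s X => ?_, fun n r s X => ?_,
    fun n r s N t hN => ?_, fun n => ?_⟩
  · rw [hnum]
    exact hM n r s X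
  · obtain ⟨L, h1, h2, h3⟩ := Pool.Agent.H688.WSM.out_sound r s X
    exact ⟨L, h1, h2, fun M hM => (hst n r s M).2 (h3 M hM)⟩
  · rw [hnum]
    exact Pool.Agent.H688.WSM.out_random r s hN
  · obtain ⟨X, hX⟩ := Pool.Agent.H688.WSM.out_advice n
    refine ⟨X, fun r s => ?_⟩
    rw [hnum]
    exact hX r s

end Pool.Agent.Results.MP_9fcbaa_lc.RandomizedListing
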